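import Pool.Agent.Q184.Doyle.Main

namespace Pool.Agent.Results.MP_5725d1_gt.DoyleRigidity

open Real

/-- The lattice point `n + m ω`, `ω = e^{iπ/3}`, of the vertex `v_{n,m}`, here `v = (n, m)`. -/
noncomputable def pt (v : ℤ × ℤ) : ℂ :=
  (v.1 : ℂ) + (v.2 : ℂ) * Complex.exp (Complex.I * ((π / 3 : ℝ) : ℂ))

/-- Two vertices of the hexagonal complex are adjacent when their lattice points are at
distance `1`. -/
def Adj (v u : ℤ × ℤ) : Prop := dist (pt v) (pt u) = 1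

/-- `⟨v, u, w⟩` is a face of the hexagonal complex, listed in counterclockwise order. -/
def Face (v u w : ℤ × ℤ) : Prop :=
  Adj v u ∧ Adj v w ∧ Adj u w ∧ 0 < ((pt w - pt v) * (starRingEnd ℂ) (pt u - pt v)).im

/-- The angle opposite the side `y + w` in the Euclidean triangle with side lengths `x + y`,
`x + w`, `y + w`. -/
noncomputable def angle (x y w : ℝ) : ℝ :=
  arccos (((x + y) ^ 2 + (x + w) ^ 2 - (y + w) ^ 2) / (2 * (x + y) * (x + w)))

/-- The angle sum `θ_R(v)`: the sum over the faces at `v` of the angle at `v`. -/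
noncomputable def angleSum (R : ℤ × ℤ → ℝ) (v : ℤ × ℤ) : ℝ :=
  ∑ᶠ e : {e : (ℤ × ℤ) × (ℤ × ℤ) // Face v e.1 e.2}, angle (R v) (R e.1.1) (R e.1.2)

/-- `R` is a packing label. -/
def IsPackingLabel (R : ℤ × ℤ → ℝ) : Prop :=
  (∀ v, 0 < R v) ∧ ∀ v, angleSum R v = 2 * π

/-- The circles with centres `z v` and radii `R v` form a circle packing for the hexagonal complex:
circles of adjacent vertices are externally tangent, and every face is positively oriented. -/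
def IsCirclePacking (R : ℤ × ℤ → ℝ) (z : ℤ × ℤ → ℂ) : Prop :=
  (∀ v u, Adj v u → dist (z v) (z u) = R v + R u) ∧
    ∀ v u w, Face v u w → 0 < ((z w - z v) * (starRingEnd ℂ) (z u - z v)).im

/-- The seven circles of every flower have pairwise disjoint interiors. -/
def LocallyUnivalent (R : ℤ × ℤ → ℝ) (z : ℤ × ℤ → ℂ) : Prop :=
  ∀ v s t, (s = v ∨ Adj v s) → (t = v ∨ Adj v t) → s ≠ t →
    Disjoint (Metric.ball (z s) (R s)) (Metric.ball (z t) (R t))

open Q184.Doyle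

theorem exp_re : (Complex.exp (Complex.I * ((π / 3 : ℝ) : ℂ))).re = 1 / 2 := by
  rw [mul_comm, Complex.exp_mul_I, ← Complex.ofReal_cos, ← Complex.ofReal_sin, Real.cos_pi_div_three]
  simp

theorem exp_im : (Complex.exp (Complex.I * ((π / 3 : ℝ) : ℂ))).im = √3 / 2 := by
  rw [mul_comm, Complex.exp_mul_I, ← Complex.ofReal_cos, ← Complex.ofReal_sin, Real.sin_pi_div_three]
  simp

theorem pt_sub_re (v u : ℤ × ℤ) :
    (pt v - pt u).re = ((v.1 - u.1 : ℤ) : ℝ) + ((v.2 - u.2 : ℤ) : ℝ) / 2 := by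
  simp only [pt, Complex.sub_re, Complex.add_re, Complex.mul_re, Complex.intCast_re,
    Complex.intCast_im, exp_re, exp_im]
  push_cast
  ring

theorem pt_sub_im (v u : ℤ × ℤ) :
    (pt v - pt u).im = ((v.2 - u.2 : ℤ) : ℝ) * (√3 / 2) := by
  simp only [pt, Complex.sub_im, Complex.add_im, Complex.mul_im, Complex.intCast_re,
    Complex.intCast_im, exp_re, exp_im]
  push_cast
  ring

theorem adj_iff (v u : ℤ × ℤ) : Adj v u ↔
    (u.1 - v.1) ^ 2 + (u.1 - v.1) * (u.2 - v.2) + (u.2 - v.2) ^ 2 = 1 := by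
  unfold Adj
  rw [dist_comm, Complex.dist_eq, ← sq_eq_sq₀ (norm_nonneg _) zero_le_one, Complex.sq_norm,
    Complex.normSq_apply, pt_sub_re, pt_sub_im]
  have h3 : √3 ^ 2 = 3 := Real.sq_sqrt (by norm_num)
  have e1 : (((u.1 - v.1 : ℤ) : ℝ) + ((u.2 - v.2 : ℤ) : ℝ) / 2) *
      (((u.1 - v.1 : ℤ) : ℝ) + ((u.2 - v.2 : ℤ) : ℝ) / 2) +
      ((u.2 - v.2 : ℤ) : ℝ) * (√3 / 2) * (((u.2 - v.2 : ℤ) : ℝ) * (√3 / 2)) =
      (((u.1 - v.1) ^ 2 + (u.1 - v.1) * (u.2 - v.2) + (u.2 - v.2) ^ 2 : ℤ) : ℝ) := by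
    push_cast
    linear_combination ((u.2 : ℝ) - v.2) ^ 2 / 4 * h3
  rw [e1, one_pow]
  exact_mod_cast Iff.rfl

theorem adj_iff_dir (v u : ℤ × ℤ) : Adj v u ↔ ∃ k : Fin 6, u = v + dir k := by
  rw [adj_iff]
  constructor
  · intro h
    obtain ⟨a, b⟩ := v
    obtain ⟨c, d⟩ := u
    simp only at h
    have hx : c - a ≤ 1 ∧ -1 ≤ c - a := by constructor <;> nlinarith [sq_nonneg (c - a + 2 * (d - b)), sq_nonneg (c - a)]
    have hy : d - b ≤ 1 ∧ -1 ≤ d - b := by constructor <;> nlinarith [sq_nonneg (d - b + 2 * (c - a)), sq_nonneg (d - b)]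
    obtain ⟨x, hx'⟩ : ∃ x, x = c - a := ⟨_, rfl⟩
    obtain ⟨y, hy'⟩ : ∃ y, y = d - b := ⟨_, rfl⟩
    rw [← hx', ← hy'] at h
    rw [← hx'] at hx
    rw [← hy'] at hy
    have hc : c = a + x := by omega
    have hd : d = b + y := by omega
    subst hc hd
    obtain ⟨hx1, hx2⟩ := hx
    obtain ⟨hy1, hy2⟩ := hy
    interval_cases x <;> interval_cases y <;> first | (exfalso; revert h; norm_num; done) | skip
    · exact ⟨3, by simp [dir]⟩
    · exact ⟨2, by simp [dir]⟩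
    · exact ⟨4, by simp [dir]⟩
    · exact ⟨1, by simp [dir]⟩
    · exact ⟨5, by simp [dir]⟩
    · exact ⟨0, by simp [dir]⟩
  · rintro ⟨k, rfl⟩
    fin_cases k <;> simp [dir]

theorem face_iff (v u w : ℤ × ℤ) : Face v u w ↔
    ∃ k : Fin 6, u = v + dir k ∧ w = v + dir (k + 1) := by
  have him : ∀ u w : ℤ × ℤ, ((pt w - pt v) * (starRingEnd ℂ) (pt u - pt v)).im =
      (((w.2 - v.2) * (u.1 - v.1) - (w.1 - v.1) * (u.2 - v.2) : ℤ) : ℝ) * (√3 / 2) := by
    intro u w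
    rw [Complex.mul_im, Complex.conj_re, Complex.conj_im, pt_sub_re, pt_sub_re, pt_sub_im,
      pt_sub_im]
    push_cast
    ring
  have hpos : ∀ u w : ℤ × ℤ, 0 < ((pt w - pt v) * (starRingEnd ℂ) (pt u - pt v)).im ↔
      0 < (w.2 - v.2) * (u.1 - v.1) - (w.1 - v.1) * (u.2 - v.2) := by
    intro u w
    rw [him u w]
    have : (0 : ℝ) < √3 / 2 := by positivity
    rw [mul_pos_iff_of_pos_right this]
    exact_mod_cast Iff.rfl
  unfold Face
  rw [hpos]
  constructor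
  · rintro ⟨h1, h2, h3, h4⟩
    rw [adj_iff_dir] at h1 h2
    obtain ⟨k, rfl⟩ := h1
    obtain ⟨l, rfl⟩ := h2
    rw [adj_iff] at h3
    refine ⟨k, rfl, ?_⟩
    congr 1
    have h3' : ((dir l).1 - (dir k).1) ^ 2 + ((dir l).1 - (dir k).1) * ((dir l).2 - (dir k).2) +
        ((dir l).2 - (dir k).2) ^ 2 = 1 := by
      rw [← h3]; simp
    have h4' : 0 < (dir l).2 * (dir k).1 - (dir l).1 * (dir k).2 := by
      simpa using h4
    revert h3' h4'
    clear h3 h4
    revert k l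
    decide
  · rintro ⟨k, rfl, rfl⟩
    refine ⟨(adj_iff_dir _ _).mpr ⟨k, rfl⟩, (adj_iff_dir _ _).mpr ⟨k + 1, rfl⟩, ?_, ?_⟩
    · rw [adj_iff_dir]
      refine ⟨k + 2, ?_⟩
      rw [add_assoc, dir_add_two]
    · have : 0 < (dir (k + 1)).2 * (dir k).1 - (dir (k + 1)).1 * (dir k).2 := by
        revert k; decide
      simpa using this

theorem angleSum_eq (R : ℤ × ℤ → ℝ) (v : ℤ × ℤ) :
    angleSum R v = ∑ k : Fin 6, ang (R v) (R (v + dir k)) (R (v + dir (k + 1))) := by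
  let e : Fin 6 ≃ {e : (ℤ × ℤ) × (ℤ × ℤ) // Face v e.1 e.2} :=
    Equiv.ofBijective (fun k => ⟨(v + dir k, v + dir (k + 1)), (face_iff _ _ _).mpr ⟨k, rfl, rfl⟩⟩)
      ⟨by
        intro k l h
        have h1 := congrArg (fun x => x.1.1) h
        exact dir_injective (add_left_cancel h1), by
        rintro ⟨⟨u, w⟩, h⟩
        obtain ⟨k, h1, h2⟩ := (face_iff _ _ _).mp h
        exact ⟨k, Subtype.ext (Prod.ext h1.symm h2.symm)⟩⟩
  unfold angleSum
  rw [← finsum_comp_equiv e, finsum_eq_sum_of_fintype]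
  rfl

/-- **Doyle's conjecture.** Every locally univalent circle packing for the hexagonal complex has
a label of the form `c a^n b^m`. -/
theorem result (R : ℤ × ℤ → ℝ) (z : ℤ × ℤ → ℂ) (hR : IsPackingLabel R)
    (hz : IsCirclePacking R z) (hU : LocallyUnivalent R z) :
    ∃ a b c : ℝ, 0 < a ∧ 0 < b ∧ 0 < c ∧ ∀ n m : ℤ, R (n, m) = c * a ^ n * b ^ m := by
  have hP : IsPacking R z :=
    { pos := hR.1
      angleSum := fun v => by rw [← angleSum_eq, hR.2 v]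
      tangent := fun v k => hz.1 _ _ ((adj_iff_dir _ _).mpr ⟨k, rfl⟩)
      oriented := fun v k => hz.2 _ _ _ ((face_iff _ _ _).mpr ⟨k, rfl, rfl⟩) }
  have hfl : ∀ v s, s ∈ flower v → s = v ∨ Adj v s := by
    intro v s hs
    rcases hs with h | ⟨k, h⟩
    · exact Or.inl h
    · exact Or.inr ((adj_iff_dir _ _).mpr ⟨k, h.symm⟩)
  have hU' : Q184.Doyle.LocallyUnivalent R z := fun v s hs t ht hst =>
    hU v s t (hfl v s hs) (hfl v t ht) hst
  exact doyle hP hU'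

end Pool.Agent.Results.MP_5725d1_gt.DoyleRigidity
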